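import Pool.Agent.U691.HT.Fin

/-!
# Homology of the Tits–Allison–Gao algebra of a free Jordan algebra

Let `V` be a vector space of dimension three over a field `F` of characteristic zero, `J` the
free Jordan algebra on `V` and `g = TAG(J) = sl₂ ⊗ J ⊕ B(J)` its Tits–Allison–Gao Lie algebra.
Then for some `k` with `2 ≤ k ≤ 18` the homology `H_k(g, F)` contains a trivial or an adjoint
`sl₂`-submodule.

The bracket is `[X ⊗ u, Y ⊗ v] = [X, Y] ⊗ uv + 2 tr(XY) u ∧ v`,
`[u ∧ v, X ⊗ w] = X ⊗ D_{u,v}(w)` with `D_{u,v} = [L_u, L_v]`, and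
`[u ∧ v, w ∧ z] = D_{u,v}(w) ∧ z + w ∧ D_{u,v}(z)`; with the factor `2 tr(XY)`, half of the
Killing form, the Jacobi identity holds, with `tr(XY) / 2` in its place it would fail.
-/

set_option autoImplicit false

namespace Pool.Agent.Results.MP_a804c2_al.TrivialOrAdjoint

open Pool.Agent.U691.HT Pool.Agent.U691.KM

/-- For `dim V = 3` the Tits–Allison–Gao algebra `g` of the free Jordan algebra on `V` exists, and
there is a `k` with `2 ≤ k ≤ 18` such that the `sl₂`-module `H_k(g, F)` contains a submodule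
isomorphic to `L(0)` or to `L(2)`. -/
theorem result (F : Type) [Field F] [CharZero F] :
    ∃ (g : Type) (_ : LieRing g) (_ : LieAlgebra F g)
      (t : LieAlgebra.SpecialLinear.sl (Fin 2) F →ₗ[F] FreeJord F 3 →ₗ[F] g)
      (w : FreeJord F 3 →ₗ[F] FreeJord F 3 →ₗ[F] g)
      (r : LieAlgebra.SpecialLinear.sl (Fin 2) F → g →ₗ[F] g),
      IsTAG F (FreeJord F 3) g t w r ∧
      ∃ k : ℕ, 2 ≤ k ∧ k ≤ 18 ∧ (TrivialIn F g r k ∨ AdjointIn F g r k) := by
  refine ⟨TAG F (FreeJord F 3), inferInstance, inferInstance, tT F _, wT' F _, TAG.slAct,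
    isTAG F _, ?_⟩
  by_contra hcon
  push Not at hcon
  exact main F fun k h1 h2 => hcon k h1 h2

end Pool.Agent.Results.MP_a804c2_al.TrivialOrAdjoint
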